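import Pool.Agent.W483.FB.Stm2

/-!
# FB-17: the second linear programming bound as the value of a 2 x 2 matrix
-/

open Finset Matrix Filter Polynomial
open scoped Topology

namespace Pool.Agent.W351.FB

open Pool.Agent.W483.FB

theorem h_one : h 1 = 1 := by
  unfold h H2
  have h1 : Real.logb 2 (1 / 2) = -1 := by
    rw [one_div, Real.logb_inv, Real.logb_self_eq_one (by norm_num)]
  have h2 : (1 : ℝ) / 2 - 1 / 2 * √(1 - 1) = 1 / 2 := by simp
  have h3 : (1 : ℝ) - 1 / 2 = 1 / 2 := by norm_num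
  rw [h2, h3, h1]
  norm_num

theorem trh_two (X : Matrix (Fin 2) (Fin 2) ℝ) (a b : ℝ) (ht : X.trace = a + b)
    (hd : X.det = a * b) : trh X = h a + h b := by
  unfold trh
  have h1 : X.charpoly = (Polynomial.X - C a) * (Polynomial.X - C b) := by
    rw [Matrix.charpoly_fin_two, ht, hd, C_add, C_mul]
    ring
  rw [h1, Polynomial.roots_mul (mul_ne_zero (X_sub_C_ne_zero a) (X_sub_C_ne_zero b)),
    roots_X_sub_C, roots_X_sub_C]
  simp

theorem trh_one (X : Matrix (Fin 1) (Fin 1) ℝ) : trh X = h (X 0 0) := by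
  unfold trh
  have h1 : X.charpoly = Polynomial.X - C (X 0 0) := by
    unfold Matrix.charpoly
    rw [Matrix.det_fin_one, Matrix.charmatrix_apply_eq]
  rw [h1, roots_X_sub_C]
  simp

theorem t_two : S_two := by
  intro δ u hδ hu hu1
  have hu2 : 0 < 1 - u := by linarith
  set c : ℝ := √(2 * δ / (1 - u)) with hc
  have hc2 : c ^ 2 = 2 * δ / (1 - u) := Real.sq_sqrt (by positivity)
  have hc1 : c ^ 2 ≤ 1 := by
    rw [hc2, div_le_one hu2]
    linarith
  set s : ℝ := √(1 - c ^ 2) with hs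
  have hs2 : s ^ 2 = 1 - c ^ 2 := Real.sq_sqrt (by linarith)
  have hcs : c ^ 2 * (1 - u) = 2 * δ := by
    rw [hc2]
    field_simp
  have hsu : √u ^ 2 = u := Real.sq_sqrt hu.le
  have hsu2 : √(1 - u) ^ 2 = 1 - u := Real.sq_sqrt hu2.le
  set Y : Matrix (Fin 2) (Fin 2) ℝ := !![c ^ 2 * u + s ^ 2, -(c * s * (1 - u));
    -(c * s * (1 - u)), s ^ 2 * u + c ^ 2] with hY
  have hYY : Y * Y = !![c ^ 2 * u ^ 2 + s ^ 2, -(c * s * (1 - u ^ 2));
    -(c * s * (1 - u ^ 2)), s ^ 2 * u ^ 2 + c ^ 2] := by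
    rw [hY, Matrix.mul_fin_two]
    ext i j
    fin_cases i <;> fin_cases j
    · simp
      linear_combination (c ^ 2 * u ^ 2 + s ^ 2) * hs2
    · simp
      linear_combination (-(c * s * (1 - u) * (1 + u))) * hs2
    · simp
      linear_combination (-(c * s * (1 - u) * (1 + u))) * hs2
    · simp
      linear_combination (s ^ 2 * u ^ 2 + c ^ 2) * hs2
  refine ⟨Y, ?_, ?_, ?_, ?_⟩
  · have h1 : Y = (!![√u * c, √u * s; s, -c] : Matrix (Fin 2) (Fin 2) ℝ)ᴴ *
        !![√u * c, √u * s; s, -c] := by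
      ext i j
      fin_cases i <;> fin_cases j <;>
        simp [hY, Matrix.mul_apply, Fin.sum_univ_two, Matrix.conjTranspose_apply]
      · linear_combination -c ^ 2 * hsu
      · linear_combination -(c * s) * hsu
      · linear_combination -(c * s) * hsu
      · linear_combination -s ^ 2 * hsu
    rw [h1]
    exact Matrix.posSemidef_conjTranspose_mul_self _
  · have h1 : 1 - Y = (!![√(1 - u) * c, √(1 - u) * s; 0, 0] : Matrix (Fin 2) (Fin 2) ℝ)ᴴ *
        !![√(1 - u) * c, √(1 - u) * s; 0, 0] := by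
      ext i j
      fin_cases i <;> fin_cases j <;>
        simp [hY, Matrix.mul_apply, Fin.sum_univ_two, Matrix.conjTranspose_apply]
      · linear_combination -c ^ 2 * hsu2 - hs2
      · linear_combination -(c * s) * hsu2
      · linear_combination -(c * s) * hsu2
      · linear_combination -s ^ 2 * hsu2 - hs2
    rw [h1]
    exact Matrix.posSemidef_conjTranspose_mul_self _
  · show c ^ 2 * u + s ^ 2 = 1 - 2 * δ
    linear_combination hs2 - hcs
  · rw [trh_two (Y * Y) 1 (u ^ 2), trh_one, h_one]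
    · have h2 : ((Y * Y).submatrix (Fin.succ (n := 1)) (Fin.succ (n := 1))) 0 0 =
          u ^ 2 + 2 * δ * u + 2 * δ := by
        rw [hYY]
        show s ^ 2 * u ^ 2 + c ^ 2 = u ^ 2 + 2 * δ * u + 2 * δ
        linear_combination u ^ 2 * hs2 + (1 + u) * hcs
      rw [h2]
    · rw [hYY, Matrix.trace_fin_two]
      show c ^ 2 * u ^ 2 + s ^ 2 + (s ^ 2 * u ^ 2 + c ^ 2) = 1 + u ^ 2
      linear_combination (1 + u ^ 2) * hs2
    · rw [hYY, Matrix.det_fin_two]
      show (c ^ 2 * u ^ 2 + s ^ 2) * (s ^ 2 * u ^ 2 + c ^ 2) -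
        -(c * s * (1 - u ^ 2)) * -(c * s * (1 - u ^ 2)) = 1 * u ^ 2
      linear_combination (u ^ 2 * (c ^ 2 + s ^ 2 + 1)) * hs2

end Pool.Agent.W351.FB
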